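import Pool.Agent.Q267.CDE.W7
import Pool.Agent.Q267.Seven.Split

/-!
# MP_5d4920_nt

Legendre-weighted sums of squared central binomial coefficients modulo `p²`: Q1, parts (a) and (b).
-/

namespace Pool.Agent.Results.MP_5d4920_nt.Full

open Finset

/-- `r ≡ s (mod p^2)`: `p^2` divides the numerator of `r - s` written in lowest terms. -/
def Cong (p : ℕ) (r s : ℚ) : Prop := (p : ℤ) ^ 2 ∣ (r - s).num

/-- The Legendre symbol `(k/3)`. -/
def chi (k : ℕ) : ℤ := if k % 3 = 1 then 1 else if k % 3 = 2 then -1 else 0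

open Pool.Agent.Q267 Pool.Agent.Q267.CDE Pool.Agent.Q267.Seven Q278.PI

theorem chi_eq_chi3 (k : ℕ) : chi k = chi3 k := rfl

section

variable (p : ℕ) [hp : Fact p.Prime] {m : ℕ} (hpm : p = 2 * m + 1) (h3 : 3 < p)

include hpm h3

theorem h16 : ¬ (p : ℤ) ∣ 16 := by
  have hn := two_pow_not_dvd p hpm h3 4
  have : (((2 ^ 4 : ℕ)) : ℤ) = 16 := by norm_num
  rwa [this] at hn

theorem hneg16 : ¬ (p : ℤ) ∣ -16 := by
  rw [dvd_neg]
  exact h16 p hpm h3

/-- the sum with weights `f` in `ℤ_(p)` and its image in `ℤ/p²` -/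
theorem sum_res (c e : ℤ) (hc : (c = 16 ∧ e = 1) ∨ (c = -16 ∧ e = -1)) (f : ℕ → ℤ) :
    ∃ a : O p, (a : ℚ) = ∑ k ∈ range p, (f k : ℚ) * ((2 * k).choose k : ℚ) ^ 2 / (c : ℚ) ^ k ∧
      res2 p a = ∑ k ∈ range (m + 1), (f k : R p) * ((e : R p) ^ k * (dl m k : R p)) := by
  have hcd : ¬ (p : ℤ) ∣ c := by
    rcases hc with ⟨rfl, -⟩ | ⟨rfl, -⟩
    · exact h16 p hpm h3
    · exact hneg16 p hpm h3
  refine ⟨∑ k ∈ range p, (f k : O p) * (k.centralBinom : O p) ^ 2 * (invI p c) ^ k, ?_, ?_⟩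
  · push_cast
    refine sum_congr rfl fun k _ => ?_
    rw [invI_coe p c hcd, Nat.centralBinom, inv_pow, div_eq_mul_inv]
  · have hJ := res2_invI p c hcd
    simp only [map_sum, map_mul, map_pow, map_natCast, map_intCast]
    set J := res2 p (invI p c) with hJdef
    rw [← sum_range_add_sum_Ico _ (show m + 1 ≤ p by omega)]
    have h5 : ∑ k ∈ Ico (m + 1) p, (f k : R p) * (k.centralBinom : R p) ^ 2 * J ^ k = 0 := by
      refine sum_eq_zero fun k hk => ?_
      rw [mem_Ico] at hk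
      rw [u2_zero p hpm h3 k (by omega) hk.2]
      ring
    rw [h5, add_zero]
    refine sum_congr rfl fun k hk => ?_
    have hk' : k ≤ m := by simpa [Nat.lt_succ_iff] using hk
    rcases hc with ⟨rfl, rfl⟩ | ⟨rfl, rfl⟩
    · push_cast at hJ ⊢
      have h6 := u2 p hpm h3 J hJ k hk'
      rw [one_pow]
      linear_combination (f k : R p) * h6
    · push_cast at hJ ⊢
      have h6 := u2 p hpm h3 (-J) (by linear_combination hJ) k hk'
      have h7 : (-J) ^ k = (-1) ^ k * J ^ k := neg_pow _ _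
      have h8 : ((-1 : R p)) ^ k * (-1) ^ k = 1 := by rw [← mul_pow]; norm_num
      rw [h7] at h6
      linear_combination ((f k : R p) * (-1) ^ k) * h6 - (f k : R p) *
        (k.centralBinom : R p) ^ 2 * J ^ k * h8

end

theorem cong_of {p : ℕ} [hp : Fact p.Prime] {r s : ℚ} (a b : O p) (ha : (a : ℚ) = r)
    (hb : (b : ℚ) = s) (h : res2 p a = res2 p b) : Cong p r s := by
  subst ha hb
  exact cong_of_res2 p a b h

/-- part (a) -/
theorem partA (p : ℕ) (hp' : p.Prime) (h12 : p % 12 = 7) (x y : ℤ)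
    (hxy : (p : ℤ) = x ^ 2 + 3 * y ^ 2) (hy : y % 4 = 1) :
    Cong p (∑ k ∈ range p, (chi k : ℚ) * ((2 * k).choose k : ℚ) ^ 2 / (-16) ^ k)
      ((-1) ^ ((p - 3) / 4) * (4 * (y : ℚ) - p / (3 * y))) ∧
    Cong p (∑ k ∈ range p, (chi k : ℚ) * ((k : ℚ) * ((2 * k).choose k : ℚ) ^ 2) / (-16) ^ k)
      ((-1) ^ ((p + 1) / 4) * (y : ℚ)) := by
  have hp := Fact.mk hp'
  obtain ⟨m, hm⟩ : ∃ m, p = 2 * m + 1 := ⟨p / 2, by omega⟩
  have h3 : 3 < p := by omega
  -- `p` does not divide `y`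
  have hyd : ¬ (p : ℤ) ∣ y := by
    intro h
    have hy0 : y ≠ 0 := by omega
    have h1 := Int.le_of_dvd (by positivity) ((dvd_abs _ _).2 h)
    have h2 : (p : ℤ) ^ 2 ≤ y ^ 2 := by
      rw [← sq_abs y]
      exact pow_le_pow_left₀ (by positivity) h1 2
    nlinarith [sq_nonneg x]
  have h3d : ¬ (p : ℤ) ∣ 3 := by
    intro h
    have := Int.le_of_dvd (by norm_num) h
    omega
  have h6d : ¬ (p : ℤ) ∣ 6 := by
    intro h
    have h' : (p : ℤ) ∣ 2 * 3 := h
    rcases (Nat.prime_iff_prime_int.1 hp').dvd_or_dvd h' with h | h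
    · have := Int.le_of_dvd (by norm_num) h
      omega
    · exact h3d h
  have h3y : ¬ (p : ℤ) ∣ 3 * y := by
    intro h
    rcases (Nat.prime_iff_prime_int.1 hp').dvd_or_dvd h with h | h
    · exact h3d h
    · exact hyd h
  have h6y : ¬ (p : ℤ) ∣ 6 * y := by
    intro h
    rcases (Nat.prime_iff_prime_int.1 hp').dvd_or_dvd h with h | h
    · exact h6d h
    · exact hyd h
  have hY := res2_invI p (6 * y) h6y
  have hY3 := res2_invI p (3 * y) h3y
  push_cast at hY hY3
  set Y := res2 p (invI p (6 * y)) with hYdef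
  set Y3 := res2 p (invI p (3 * y)) with hY3def
  obtain ⟨w, hw, hsu, hAu, hA, hAc⟩ := A7 h12 m hm x y hxy hy Y hY
  have hw' : (-1 - w) ^ 2 + (-1 - w) + 1 = 0 := by linear_combination hw
  have hs2 : (2 * w + 1) ^ 2 = -3 := by linear_combination 4 * hw
  have hpp := CDE.p_sq p
  have h2u : IsUnit (2 : R p) := by
    have := isUnit_nat p 2 (by omega) (by omega)
    exact_mod_cast this
  have h3u : IsUnit (3 : R p) := by
    have := isUnit_nat p 3 (by omega) (by omega)
    exact_mod_cast this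
  have hYY : Y3 = 2 * Y := by
    have hyu : IsUnit (3 * (y : R p)) := IsUnit.of_mul_eq_one _ hY3
    apply hyu.mul_left_cancel
    linear_combination hY3 - hY
  set δ : R p := (-1) ^ ((p - 3) / 4) with hδ
  have hδ2 : δ * δ = 1 := by rw [hδ, ← mul_pow]; norm_num
  refine ⟨?_, ?_⟩
  · obtain ⟨a, ha, hra⟩ := sum_res p hm h3 (-16) (-1) (Or.inr ⟨rfl, rfl⟩) chi
    refine cong_of a ((-1) ^ ((p - 3) / 4) * (4 * (y : O p) - (p : O p) * invI p (3 * y))) ?_ ?_ ?_
    · rw [ha]
      push_cast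
      rfl
    · have c4 : ((4 : O p) : ℚ) = 4 := rfl
      push_cast
      rw [c4, invI_coe p _ h3y]
      push_cast
      rw [div_eq_mul_inv]
    · rw [hra]
      simp only [map_mul, map_sub, map_pow, map_neg, map_one, map_natCast, map_intCast, map_ofNat]
      rw [← hY3def, ← hδ]
      push_cast
      apply hsu.mul_left_cancel
      have e1 : (2 * w + 1) * ∑ k ∈ range (m + 1), (chi k : R p) * ((-1) ^ k * (dl m k : R p)) =
          ∑ k ∈ range (m + 1), (dl m k : R p) * (-w) ^ k -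
            ∑ k ∈ range (m + 1), (dl m k : R p) * (-(-1 - w)) ^ k := by
        rw [mul_sum, ← sum_sub_distrib]
        refine sum_congr rfl fun k _ => ?_
        have h5 := chi3_eq w hw k
        rw [neg_pow w k, neg_pow (-1 - w) k, chi_eq_chi3]
        linear_combination ((-1) ^ k * (dl m k : R p)) * h5
      rw [e1, hAc, hA, hYY]
      ring
  · obtain ⟨a, ha, hra⟩ := sum_res p hm h3 (-16) (-1) (Or.inr ⟨rfl, rfl⟩) (fun k => chi k * (k : ℤ))
    refine cong_of a ((-1) ^ ((p + 1) / 4) * (y : O p)) ?_ ?_ ?_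
    · rw [ha]
      refine sum_congr rfl fun k _ => ?_
      push_cast
      ring
    · push_cast
      rfl
    · rw [hra]
      simp only [map_mul, map_pow, map_neg, map_one, map_intCast, Int.cast_neg, Int.cast_one]
      have hexp : (p + 1) / 4 = (p - 3) / 4 + 1 := by omega
      rw [hexp, pow_succ (-1 : R p) ((p - 3) / 4), ← hδ]
      have e1 : (2 * w + 1) * ∑ k ∈ range (m + 1), ((chi k * (k : ℤ) : ℤ) : R p) *
          ((-1) ^ k * (dl m k : R p)) =
          ∑ k ∈ range (m + 1), (k : R p) * ((dl m k : R p) * (-w) ^ k) -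
            ∑ k ∈ range (m + 1), (k : R p) * ((dl m k : R p) * (-(-1 - w)) ^ k) := by
        rw [mul_sum, ← sum_sub_distrib]
        refine sum_congr rfl fun k _ => ?_
        have h5 := chi3_eq w hw k
        rw [neg_pow w k, neg_pow (-1 - w) k, chi_eq_chi3]
        push_cast
        linear_combination ((-1) ^ k * (dl m k : R p) * (k : R p)) * h5
      have d1 := A7_deriv h12 m hm w hw
      have d2 := A7_deriv h12 m hm (-1 - w) hw'
      rw [hAc] at d2
      set A := ∑ k ∈ range (m + 1), (dl m k : R p) * (-w) ^ k with hAdef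
      set A1 := ∑ k ∈ range (m + 1), (k : R p) * ((dl m k : R p) * (-w) ^ k)
      set A2 := ∑ k ∈ range (m + 1), (k : R p) * ((dl m k : R p) * (-(-1 - w)) ^ k)
      set L := ∑ k ∈ range (m + 1), ((chi k * (k : ℤ) : ℤ) : R p) *
          ((-1) ^ k * (dl m k : R p))
      have e2 : 2 * A * (A1 - A2) = p - A ^ 2 := by
        apply h3u.mul_left_cancel
        linear_combination d1 + d2
      have e3 : (2 * A * (2 * w + 1)) * L = p - A ^ 2 := by
        rw [← e2]
        linear_combination (2 * A) * e1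
      apply ((h2u.mul hAu).mul hsu).mul_left_cancel
      rw [e3, hA]
      have hYy : 6 * (y : R p) * Y = 1 := hY
      linear_combination (2 * δ ^ 2 * (y : R p) * (2 * y - p * Y) - δ ^ 2 * (2 * (y : R p) - p * Y) ^ 2) * hs2
        + (3 * (2 * (y : R p) - p * Y) ^ 2 - 6 * (y : R p) * (2 * y - p * Y)) * hδ2 + (-p : R p) * hYy + 3 * Y ^ 2 * hpp

/-- the weighted sum for even `m` -/
theorem even_zero (m : ℕ) (hm : Even m) :
    ∑ k ∈ range (m + 1), chi k * ((-1) ^ k * dl m k) = 0 := by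
  obtain ⟨s, hs⟩ : ∃ s : ℂ, s ^ 2 = -3 := IsAlgClosed.exists_pow_nat_eq (-3) two_pos
  set w : ℂ := (s - 1) / 2 with hw
  have h1 : w ^ 2 + w + 1 = 0 := by
    rw [hw]
    linear_combination (1 / 4 : ℂ) * hs
  have h2 : s = 2 * w + 1 := by rw [hw]; ring
  have h1' : (-1 - w) ^ 2 + (-1 - w) + 1 = 0 := by linear_combination h1
  have h3u : IsUnit (3 : ℂ) := (isUnit_iff_ne_zero).2 (by norm_num)
  have hs0 : s ≠ 0 := by
    rintro h
    rw [h] at hs
    norm_num at hs
  have e1 := Rg.F_w h3u w s h1 h2 m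
  have e2 := Rg.F_w h3u (-1 - w) (-s) h1' (by rw [h2]; ring) m
  rw [← e1, hm.neg_pow] at e2
  have e3 := mul_left_cancel₀ (pow_ne_zero m hs0) e2
  have e4 : s * ∑ k ∈ range (m + 1), (chi k : ℂ) * ((-1) ^ k * (dl m k : ℂ)) =
          ∑ k ∈ range (m + 1), (dl m k : ℂ) * (-w) ^ k -
            ∑ k ∈ range (m + 1), (dl m k : ℂ) * (-(-1 - w)) ^ k := by
    rw [mul_sum, ← sum_sub_distrib]
    refine sum_congr rfl fun k _ => ?_
    have h5 := chi3_eq w h1 k
    rw [← h2] at h5
    rw [neg_pow w k, neg_pow (-1 - w) k, chi_eq_chi3]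
    linear_combination ((-1) ^ k * (dl m k : ℂ)) * h5
  rw [e3, sub_self] at e4
  have e5 := (mul_eq_zero.1 e4).resolve_left hs0
  exact_mod_cast e5

theorem chi_anti (m k : ℕ) (hm : 3 ∣ m) (hk : k ≤ m) : chi (m - k) = -chi k := by
  unfold chi
  split_ifs <;> omega

/-- `C(p-1,k) = (-1)^k (1 - p h_k)` in `ℤ/p²` -/
theorem choose_R2 (p : ℕ) [hp : Fact p.Prime] (k : ℕ) (hk : k < p) :
    (((p - 1).choose k : ℕ) : R p) = (-1) ^ k * (1 - p * hR p k) := by
  induction k with
  | zero => simp [hR]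
  | succ k ih =>
    have ih := ih (by omega)
    have h1 := Nat.choose_succ_right_eq (p - 1) k
    have h1' : (((p - 1).choose (k + 1) * (k + 1) : ℕ) : R p) =
      (((p - 1).choose k * (p - 1 - k) : ℕ) : R p) := by rw [h1]
    rw [Nat.cast_mul, Nat.cast_mul, ih] at h1'
    have h2 : ((p - 1 - k : ℕ) : R p) + ((k + 1 : ℕ) : R p) = (p : R p) := by
      rw [← Nat.cast_add]
      congr 1
      omega
    have hu := unit_cast p (k + 1) (by omega) (by omega)
    have hH : hR p (k + 1) = hR p k + ((k + 1 : ℕ) : R p)⁻¹ := by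
      unfold hR
      rw [sum_range_succ]
    have hcanc : IsUnit (((k + 1 : ℕ) : R p)) := IsUnit.of_mul_eq_one _ hu
    apply hcanc.mul_right_cancel
    rw [h1', hH]
    have hpp := CDE.p_sq p
    rw [pow_succ (-1 : R p) k]
    linear_combination ((-1) ^ k * (1 - p * hR p k)) * h2 - (-1) ^ k * (p : R p) * hu
      - (-1) ^ k * hR p k * hpp

/-- part (b) -/
theorem partB (p : ℕ) (hp' : p.Prime) (h12 : p % 12 = 1) :
    Cong p (∑ k ∈ range p, ((p - 1).choose k : ℚ) * (chi k : ℚ) * ((2 * k).choose k : ℚ) ^ 2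
      / 16 ^ k) 0 := by
  have hp := Fact.mk hp'
  have hp2 := hp'.two_le
  obtain ⟨m, hm⟩ : ∃ m, p = 2 * m + 1 := ⟨p / 2, by omega⟩
  have h3 : 3 < p := by omega
  have hme : Even m := Nat.even_iff.2 (by omega)
  have hm3 : 3 ∣ m := by omega
  obtain ⟨a, ha, hra⟩ := sum_res p hm h3 16 1 (Or.inl ⟨rfl, rfl⟩)
    (fun k => ((p - 1).choose k : ℤ) * chi k)
  refine cong_of a 0 ?_ rfl ?_
  · rw [ha]
    refine sum_congr rfl fun k _ => ?_
    push_cast
    ring
  rw [hra, map_zero]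
  simp only [Int.cast_one, one_pow]
  have e0 := congrArg (Int.cast : ℤ → R p) (even_zero m hme)
  push_cast at e0
  have h2u : IsUnit (2 : R p) := by
    have := isUnit_nat p 2 (by omega) (by omega)
    exact_mod_cast this
  -- weights
  set g : ℕ → R p := fun k => (chi k : R p) * (-1) ^ k * cR p m k with hg
  have ganti : ∀ k, k ≤ m → g (m - k) = -g k := by
    intro k hk
    have e1 : ((-1 : R p)) ^ (m - k) = (-1) ^ k := by
      have h4 : ((-1 : R p)) ^ (m - k) * (-1) ^ k = 1 := by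
        rw [← pow_add, Nat.sub_add_cancel hk, hme.neg_one_pow]
      have h5 : ((-1 : R p)) ^ k * (-1) ^ k = 1 := by rw [← mul_pow]; norm_num
      linear_combination ((-1) ^ k) * h4 - ((-1 : R p)) ^ (m - k) * h5
    have e2 : cR p m (m - k) = cR p m k := by
      unfold cR
      rw [Nat.choose_symm hk]
    rw [hg]
    simp only
    rw [e1, e2, chi_anti m k hm3 hk]
    push_cast
    ring
  have z1 : ∑ k ∈ range (m + 1), g k = 0 := by
    have h4 : ∑ k ∈ range (m + 1), g k = -∑ k ∈ range (m + 1), g k := by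
      conv_lhs => rw [← sum_range_reflect]
      rw [← sum_neg_distrib]
      refine sum_congr rfl fun k hk => ?_
      have hk' : k ≤ m := by simpa [Nat.lt_succ_iff] using hk
      rw [show m + 1 - 1 - k = m - k by omega, ganti k hk']
    apply h2u.mul_left_cancel
    linear_combination h4
  have z2 : ∑ k ∈ range (m + 1), g k * hR p (m - k) = -∑ k ∈ range (m + 1), g k * hR p k := by
    rw [← sum_range_reflect, ← sum_neg_distrib]
    refine sum_congr rfl fun k hk => ?_
    have hk' : k ≤ m := by simpa [Nat.lt_succ_iff] using hk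
    rw [show m + 1 - 1 - k = m - k by omega, ganti k hk', Nat.sub_sub_self hk']
    ring
  have z3 : ∑ k ∈ range (m + 1), (chi k : R p) * ((-1) ^ k * (dl m k : R p)) =
      (1 - p * hR p m) * ∑ k ∈ range (m + 1), g k + p * ∑ k ∈ range (m + 1), g k * hR p (m - k) := by
    rw [mul_sum, mul_sum, ← sum_add_distrib]
    refine sum_congr rfl fun k hk => ?_
    have hk' : k ≤ m := by simpa [Nat.lt_succ_iff] using hk
    rw [dl_R p m hm k hk', hg]
    ring
  rw [e0, z1, z2, mul_zero, zero_add] at z3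
  have z4 : ∑ k ∈ range (m + 1), ((((p - 1).choose k : ℤ) * chi k : ℤ) : R p) *
      (1 * (dl m k : R p)) = ∑ k ∈ range (m + 1), (chi k : R p) * ((-1) ^ k * (dl m k : R p)) -
      p * ∑ k ∈ range (m + 1), g k * hR p k := by
    rw [mul_sum, ← sum_sub_distrib]
    refine sum_congr rfl fun k hk => ?_
    have hk' : k ≤ m := by simpa [Nat.lt_succ_iff] using hk
    have h5 := choose_R2 p k (by omega)
    push_cast
    rw [h5, hg]
    have h6 : (p : R p) * (dl m k : R p) = p * cR p m k := by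
      rw [dl_R p m hm k hk']
      linear_combination (-cR p m k * (hR p m - hR p (m - k))) * CDE.p_sq p
    linear_combination (-(chi k : R p) * (-1) ^ k * hR p k) * h6
  rw [z4, e0]
  linear_combination -z3

/-- **MP_5d4920_nt, Q1.** -/
theorem result :
    (∀ p : ℕ, p.Prime → p % 12 = 7 → ∀ x y : ℤ, (p : ℤ) = x ^ 2 + 3 * y ^ 2 → y % 4 = 1 →
      Cong p (∑ k ∈ range p, (chi k : ℚ) * ((2 * k).choose k : ℚ) ^ 2 / (-16) ^ k)
        ((-1) ^ ((p - 3) / 4) * (4 * (y : ℚ) - p / (3 * y))) ∧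
      Cong p (∑ k ∈ range p, (chi k : ℚ) * ((k : ℚ) * ((2 * k).choose k : ℚ) ^ 2) / (-16) ^ k)
        ((-1) ^ ((p + 1) / 4) * (y : ℚ))) ∧
    (∀ p : ℕ, p.Prime → p % 12 = 1 →
      Cong p (∑ k ∈ range p, ((p - 1).choose k : ℚ) * (chi k : ℚ) * ((2 * k).choose k : ℚ) ^ 2
        / 16 ^ k) 0) :=
  ⟨partA, partB⟩

end Pool.Agent.Results.MP_5d4920_nt.Full
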